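import Pool.Agent.Helper8.Sey.Goals

/-!
# SEY-MAIN (project SEY of helper8, MP_b6b2d3_co)
-/

set_option autoImplicit false

namespace Pool.Agent.Helper16.Sey

open Pool.Agent.Helper8.Sey

theorem compl_card {V : Type} [Fintype V] [DecidableEq V] (G : SimpleGraph V)
    [DecidableRel G.Adj] (v : V) :
    Nat.card {u // Gᶜ.Adj v u} = Fintype.card V - 1 - G.degree v := by
  rw [← SimpleGraph.degree_compl, ← SimpleGraph.card_neighborSet_eq_degree, ← Nat.card_eq_fintype_card]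
  rfl

theorem dist_pos {n : ℕ} {i k : Fin n} (h : k ≠ i) : 1 ≤ (k.val + n - i.val) % n := by
  have h1 : k.val ≠ i.val := fun h2 => h (Fin.ext h2)
  have h2 := k.isLt
  have h3 := i.isLt
  rcases Nat.lt_or_ge k.val i.val with h4 | h4
  · rw [Nat.mod_eq_of_lt (by omega)]
    omega
  · have h5 : k.val + n - i.val = (k.val - i.val) + n := by omega
    rw [h5, Nat.add_mod_right, Nat.mod_eq_of_lt (by omega)]
    omega

theorem goalMAIN : GoalSPLIT → GoalCORE → GoalMAIN := by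
  intro hS hC ε hε
  rcases le_or_gt 1 ε with h1 | h1
  · refine ⟨1, ?_⟩
    intro r hr V _ _ G _ _ _
    refine ⟨(Fintype.equivFin V).symm, ?_⟩
    intro i k hki hd
    exfalso
    have h2 := dist_pos hki
    have h3 : (1 : ℝ) ≤ (((k.val + Fintype.card V - i.val) % Fintype.card V : ℕ) : ℝ) := by
      exact_mod_cast h2
    have h4 : (1 : ℝ) ≤ r := by exact_mod_cast hr
    nlinarith
  -- parameters
  obtain ⟨J, hJ2, hJ⟩ : ∃ J : ℕ, 3 ≤ J ∧ 8 / ε ≤ J :=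
    ⟨max 3 ⌈8 / ε⌉₊, le_max_left _ _, (Nat.le_ceil _).trans (by exact_mod_cast le_max_right _ _)⟩
  obtain ⟨M1, hM1⟩ : ∃ M1 : ℕ, (J : ℝ) / (ε / 8) ≤ M1 := ⟨⌈(J : ℝ) / (ε / 8)⌉₊, Nat.le_ceil _⟩
  obtain ⟨M0, hM01, hM0, hsplit⟩ := hS (ε / 8) M1 (by positivity)
  have hN : ∃ N0 : ℕ, ∀ D : ℕ, 1 ≤ D → D ≤ 5 * M0 →
      ∀ (V : Type) [Fintype V] (H : SimpleGraph V) (K : ℕ) (part : V → ℕ) (s : ℕ), 1 ≤ K →
      NearBd H K part D → N0 ≤ s → (∀ m, m < K → s ≤ Nat.card {v // part v = m}) →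
      ∃ σ : Fin (Fintype.card V) ≃ V, ∀ i k : Fin (Fintype.card V), H.Adj (σ i) (σ k) →
        ((J - 2 : ℕ) : ℝ) * ((1 - ε / 8) * s / (((D : ℝ) + J) * J)) ≤
          (((k.val + Fintype.card V - i.val) % Fintype.card V : ℕ) : ℝ) := by
    have hc : ∀ D : ℕ, ∃ N0 : ℕ, 1 ≤ D →
        ∀ (V : Type) [Fintype V] (H : SimpleGraph V) (K : ℕ) (part : V → ℕ) (s : ℕ), 1 ≤ K →
        NearBd H K part D → N0 ≤ s → (∀ m, m < K → s ≤ Nat.card {v // part v = m}) →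
        ∃ σ : Fin (Fintype.card V) ≃ V, ∀ i k : Fin (Fintype.card V), H.Adj (σ i) (σ k) →
          ((J - 2 : ℕ) : ℝ) * ((1 - ε / 8) * s / (((D : ℝ) + J) * J)) ≤
            (((k.val + Fintype.card V - i.val) % Fintype.card V : ℕ) : ℝ) := by
      intro D
      by_cases hD : 1 ≤ D
      · obtain ⟨N0, h⟩ := hC D J (ε / 8) hD (by omega) (by positivity)
        exact ⟨N0, fun _ => h⟩
      · exact ⟨0, fun h => absurd h hD⟩
    choose f hf using hc
    refine ⟨(Finset.range (5 * M0 + 1)).sup f, ?_⟩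
    intro D hD1 hD2 V _ H K part s hK hnb hs hsz
    refine hf D hD1 V H K part s hK hnb (le_trans ?_ hs) hsz
    exact Finset.le_sup (f := f) (Finset.mem_range.2 (by omega))
  obtain ⟨N0, hN0⟩ := hN
  refine ⟨max (2 * M0) (N0 + ⌈8 / ε⌉₊ + 3), ?_⟩
  intro r hr V _ _ G _ hn hdeg
  set n := Fintype.card V with hndef
  have hr1 : 2 * M0 ≤ r := (le_max_left _ _).trans hr
  have hr2 : N0 + ⌈8 / ε⌉₊ + 3 ≤ r := (le_max_right _ _).trans hr
  have hr3 : 8 / ε ≤ (r : ℝ) := by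
    refine (Nat.le_ceil (8 / ε)).trans ?_
    exact_mod_cast (by omega : ⌈8 / ε⌉₊ ≤ r)
  have hn1 : 2 * M0 * r ≤ n := (Nat.mul_le_mul_right r (le_max_left _ _)).trans hn
  set Δ := n / (r + 1) with hΔdef
  have hΔ1 : M0 ≤ Δ := by
    rw [hΔdef, Nat.le_div_iff_mul_le (by omega)]
    nlinarith
  have hΔ2 : Δ * (r + 1) ≤ n := Nat.div_mul_le_self n (r + 1)
  have hdegH : ∀ v, Nat.card {u // Gᶜ.Adj v u} ≤ Δ := by
    intro v
    rw [compl_card, hΔdef, Nat.le_div_iff_mul_le (by omega)]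
    have h2 := G.minDegree_le_degree v
    have h3 : n - 1 - G.degree v ≤ n - G.minDegree := by omega
    calc (Fintype.card V - 1 - G.degree v) * (r + 1) ≤ (n - G.minDegree) * (r + 1) :=
          Nat.mul_le_mul_right _ h3
      _ = n * (r + 1) - G.minDegree * (r + 1) := Nat.sub_mul _ _ _
      _ ≤ n := by
          have h4 : r * n + n = n * (r + 1) := by ring
          have h5 : (r + 1) * G.minDegree = G.minDegree * (r + 1) := by ring
          omega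
  obtain ⟨K', D, part, hK', hMD, hD5, hKM, hKD, hnb, hsz⟩ := hsplit V Gᶜ Δ hΔ1 hdegH
  have hs1 : K' * (M0 * (r + 1)) ≤ n := by
    calc K' * (M0 * (r + 1)) = K' * M0 * (r + 1) := by ring
      _ ≤ Δ * (r + 1) := Nat.mul_le_mul_right _ hKM
      _ ≤ n := hΔ2
  have hs2 : M0 * (r + 1) ≤ n / K' := by
    rw [Nat.le_div_iff_mul_le (by omega)]
    linarith [mul_comm K' (M0 * (r + 1))]
  have hs3 : r + 1 ≤ n / K' := le_trans (by nlinarith) hs2
  obtain ⟨σ, hσ⟩ := hN0 D (by omega) hD5 V Gᶜ K' part (n / K') hK' hnb (by omega) hsz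
  refine ⟨σ, ?_⟩
  intro i k hki hd
  by_contra hadj
  have hH : Gᶜ.Adj (σ i) (σ k) := by
    rw [SimpleGraph.compl_adj]
    exact ⟨fun h => hki (σ.injective h).symm, hadj⟩
  have hlb := (hσ i k hH).trans hd
  -- real estimates
  have hJr : (3 : ℝ) ≤ J := by exact_mod_cast hJ2
  have hK'r : (1 : ℝ) ≤ K' := by exact_mod_cast hK'
  have hDr : (1 : ℝ) ≤ D := by exact_mod_cast (by omega : 1 ≤ D)
  have hM0r : (1 : ℝ) ≤ M0 := by exact_mod_cast hM0
  have hrr : (3 : ℝ) ≤ r := by exact_mod_cast (by omega : 3 ≤ r)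
  have hJε : 8 ≤ ε * J := by
    rw [div_le_iff₀ hε] at hJ
    linarith
  have hrε : 8 ≤ ε * r := by
    rw [div_le_iff₀ hε] at hr3
    linarith
  have hJM : (J : ℝ) ≤ ε / 8 * M0 := by
    rw [div_le_iff₀ (by positivity)] at hM1
    have : (M1 : ℝ) ≤ M0 := by exact_mod_cast hM01
    nlinarith
  have hKMr : (K' : ℝ) * M0 ≤ Δ := by exact_mod_cast hKM
  have hKJ : (K' : ℝ) * J ≤ ε / 8 * Δ := by
    have h2 : (K' : ℝ) * J ≤ K' * (ε / 8 * M0) := mul_le_mul_of_nonneg_left hJM (by positivity)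
    nlinarith
  have hKDJ : (K' : ℝ) * (D + J) ≤ (1 + ε / 4) * Δ := by
    have h2 : (K' : ℝ) * (D + J) = K' * D + K' * J := by ring
    rw [h2]
    nlinarith
  have hΔr : (Δ : ℝ) * (r + 1) ≤ n := by exact_mod_cast hΔ2
  have hnK : (K' : ℝ) * (r + 1) ≤ n := by
    have h2 : K' * (r + 1) ≤ n := le_trans (Nat.mul_le_mul_left _ (by nlinarith)) hs1
    exact_mod_cast h2
  -- s K' ≥ (1 - ε/8) n
  have hsK : (1 - ε / 8) * n ≤ ((n / K' : ℕ) : ℝ) * K' := by
    have h2 : n < (n / K' + 1) * K' := by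
      have := Nat.div_add_mod n K'
      have h3 := Nat.mod_lt n (by omega : 0 < K')
      nlinarith
    have h3 : (n : ℝ) < (((n / K' : ℕ) : ℝ) + 1) * K' := by exact_mod_cast h2
    nlinarith
  generalize ((n / K' : ℕ) : ℝ) = s at *
  have hJ2' : ((J - 2 : ℕ) : ℝ) = J - 2 := by
    rw [Nat.cast_sub (by omega)]
    norm_num
  rw [hJ2'] at hlb
  have hs0 : 0 ≤ s := by
    by_contra h
    have h2 : 0 < (1 - ε / 8) * (n : ℝ) := by
      have h3 : (0 : ℝ) < n := by nlinarith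
      have h4 : 0 < 1 - ε / 8 := by linarith
      positivity
    nlinarith
  -- multiply out
  have hpos : 0 < ((D : ℝ) + J) * J := by positivity
  have e1 : ((J : ℝ) - 2) * ((1 - ε / 8) * s) ≤ (1 - ε) * r * (((D : ℝ) + J) * J) := by
    have h2 : ((J : ℝ) - 2) * ((1 - ε / 8) * s / (((D : ℝ) + J) * J)) =
        ((J : ℝ) - 2) * ((1 - ε / 8) * s) / (((D : ℝ) + J) * J) := by ring
    rw [h2, div_le_iff₀ hpos] at hlb
    exact hlb
  have e2 : (1 - ε / 4) * J ≤ (J : ℝ) - 2 := by nlinarith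
  have e3 : (1 - ε / 4) * ((1 - ε / 8) * s) ≤ (1 - ε) * r * ((D : ℝ) + J) := by
    have h2 : 0 ≤ (1 - ε / 8) * s := mul_nonneg (by linarith) hs0
    have h3 : (1 - ε / 4) * J * ((1 - ε / 8) * s) ≤ (1 - ε) * r * (((D : ℝ) + J) * J) :=
      (mul_le_mul_of_nonneg_right e2 h2).trans e1
    have h4 : J * ((1 - ε / 4) * ((1 - ε / 8) * s)) ≤ (J : ℝ) * ((1 - ε) * r * ((D : ℝ) + J)) := by
      linarith
    exact le_of_mul_le_mul_left h4 (by linarith)
  have e4 : (1 - ε / 4) * ((1 - ε / 8) * ((1 - ε / 8) * n)) ≤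
      (1 - ε) * r * ((1 + ε / 4) * Δ) := by
    have h2 : (1 - ε / 4) * ((1 - ε / 8) * ((1 - ε / 8) * n)) ≤
        (1 - ε / 4) * ((1 - ε / 8) * (s * K')) := by
      apply mul_le_mul_of_nonneg_left _ (by linarith)
      exact mul_le_mul_of_nonneg_left hsK (by linarith)
    have h3 : (1 - ε / 4) * ((1 - ε / 8) * (s * K')) ≤ (1 - ε) * r * ((K' : ℝ) * (D + J)) := by
      have := mul_le_mul_of_nonneg_right e3 (by linarith : (0 : ℝ) ≤ K')
      linarith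
    have h4 : (1 - ε) * r * ((K' : ℝ) * (D + J)) ≤ (1 - ε) * r * ((1 + ε / 4) * Δ) := by
      apply mul_le_mul_of_nonneg_left hKDJ
      exact mul_nonneg (by linarith) (by linarith)
    linarith
  have e5 : (1 - ε / 4) * ((1 - ε / 8) * ((1 - ε / 8) * ((Δ : ℝ) * (r + 1)))) ≤
      (1 - ε) * r * ((1 + ε / 4) * Δ) := by
    refine le_trans ?_ e4
    apply mul_le_mul_of_nonneg_left _ (by linarith)
    apply mul_le_mul_of_nonneg_left _ (by linarith)
    exact mul_le_mul_of_nonneg_left hΔr (by linarith)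
  have hΔpos : (0 : ℝ) < Δ := by
    have : (1 : ℝ) ≤ Δ := by exact_mod_cast hM0.trans hΔ1
    linarith
  have e6 : (1 - ε / 4) * ((1 - ε / 8) * ((1 - ε / 8) * ((r : ℝ) + 1))) ≤
      (1 - ε) * r * (1 + ε / 4) := by
    have h2 : (Δ : ℝ) * ((1 - ε / 4) * ((1 - ε / 8) * ((1 - ε / 8) * ((r : ℝ) + 1)))) ≤
        Δ * ((1 - ε) * r * (1 + ε / 4)) := by linarith
    exact le_of_mul_le_mul_left h2 hΔpos
  have e7 : 1 - ε / 2 ≤ (1 - ε / 4) * ((1 - ε / 8) * (1 - ε / 8)) := by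
    nlinarith [mul_nonneg hε.le hε.le, mul_nonneg (mul_nonneg hε.le hε.le) (by linarith : 0 ≤ 1 - ε)]
  have e8 : (1 - ε) * (1 + ε / 4) ≤ 1 - ε / 2 := by nlinarith
  have e9 : (1 - ε / 2) * ((r : ℝ) + 1) ≤ (1 - ε / 2) * r := by
    have h2 : (1 - ε / 2) * ((r : ℝ) + 1) ≤
        (1 - ε / 4) * ((1 - ε / 8) * (1 - ε / 8)) * ((r : ℝ) + 1) :=
      mul_le_mul_of_nonneg_right e7 (by linarith)
    have h3 : (1 - ε) * (1 + ε / 4) * (r : ℝ) ≤ (1 - ε / 2) * r :=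
      mul_le_mul_of_nonneg_right e8 (by linarith)
    linarith
  nlinarith

end Pool.Agent.Helper16.Sey
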